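import Pool.Agent.Helper55.BeerMain

set_option autoImplicit false

/-!
Every Lebesgue measurable planar set `S` whose Beer index is defined and at least `ε` contains the
whole boundary of a triangle whose area is at least `ε^8 / (2 * 10^10)` times the area of `S`.
-/

namespace Pool.Agent.Results.MP_e9a110_co.BeerTriangleBound

open MeasureTheory Set
open Pool.Agent.Helper55.Beer

/-- `Seg(S)`: pairs of points of `S` whose connecting segment lies in `S`. -/
def Seg (S : Set (ℝ × ℝ)) : Set ((ℝ × ℝ) × (ℝ × ℝ)) :=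
  {p | p.1 ∈ S ∧ p.2 ∈ S ∧ segment ℝ p.1 p.2 ⊆ S}

/-- `b(S)` is defined: `S` is Lebesgue measurable of positive finite area and `Seg(S)` is
Lebesgue measurable. -/
def BeerDefined (S : Set (ℝ × ℝ)) : Prop :=
  NullMeasurableSet S volume ∧ 0 < volume S ∧ volume S < ⊤ ∧ NullMeasurableSet (Seg S) volume

/-- The Beer index of convexity. -/
noncomputable def beerIndex (S : Set (ℝ × ℝ)) : ℝ :=
  (volume (Seg S)).toReal / (volume S).toReal ^ 2

lemma seg_eq (S : Set (ℝ × ℝ)) :
    Seg S = {p : (ℝ × ℝ) × (ℝ × ℝ) | segment ℝ p.1 p.2 ⊆ S} := by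
  ext p
  constructor
  · exact fun h => h.2.2
  · intro h
    exact ⟨h (left_mem_segment ℝ _ _), h (right_mem_segment ℝ _ _), h⟩

/-- The closed triangle `p q r`: its frontier lies in the union of its sides, and its area is at
least a quarter of `|ar p q r|` (in fact it is one half of it). -/
lemma triangle_hull (S : Set (ℝ × ℝ)) (p q r : ℝ × ℝ) (h0 : ar p q r ≠ 0)
    (hpq : segment ℝ p q ⊆ S) (hpr : segment ℝ p r ⊆ S) (hqr : segment ℝ q r ⊆ S) :
    ENNReal.ofReal (|ar p q r| / 4) ≤ volume (convexHull ℝ {p, q, r}) ∧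
      frontier (convexHull ℝ {p, q, r}) ⊆ S := by
  set L : (ℝ × ℝ) →ₗ[ℝ] (ℝ × ℝ) := lin (q.1 - p.1) (r.1 - p.1) (q.2 - p.2) (r.2 - p.2) with hL
  have hdet : LinearMap.det L = ar p q r := by
    rw [hL, lin_det]; unfold ar; ring
  have hdet0 : LinearMap.det L ≠ 0 := by rw [hdet]; exact h0
  set e := (L.equivOfDetNeZero hdet0).toContinuousLinearEquiv.toHomeomorph with he
  set g : (ℝ × ℝ) ≃ₜ (ℝ × ℝ) := e.trans (Homeomorph.addLeft p) with hg
  have hgapp : ∀ u : ℝ × ℝ, g u = (p.1 + ((q.1 - p.1) * u.1 + (r.1 - p.1) * u.2),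
      p.2 + ((q.2 - p.2) * u.1 + (r.2 - p.2) * u.2)) := by
    intro u
    have : g u = p + L u := rfl
    rw [this, hL, lin_apply]
    rfl
  have himg : g '' T0 = (fun w => p + w) '' (L '' T0) := by
    rw [image_image]
    rfl
  have hconv : Convex ℝ (g '' T0) := by
    rw [himg]
    exact (T0_convex.linear_image L).translate p
  have hhull : convexHull ℝ {p, q, r} = g '' T0 := by
    apply subset_antisymm
    · apply convexHull_min _ hconv
      intro x hx
      simp only [mem_insert_iff, mem_singleton_iff] at hx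
      rcases hx with rfl | rfl | rfl
      · refine ⟨(0, 0), ⟨le_rfl, le_rfl, by norm_num⟩, ?_⟩
        rw [hgapp]; ext <;> simp
      · refine ⟨(1, 0), ⟨zero_le_one, le_rfl, by norm_num⟩, ?_⟩
        rw [hgapp]; ext <;> simp
      · refine ⟨(0, 1), ⟨le_rfl, zero_le_one, by norm_num⟩, ?_⟩
        rw [hgapp]; ext <;> simp
    · rintro _ ⟨u, ⟨h1, h2, h3⟩, rfl⟩
      have hc := convex_convexHull ℝ ({p, q, r} : Set (ℝ × ℝ))
      have hp : p ∈ convexHull ℝ ({p, q, r} : Set (ℝ × ℝ)) := subset_convexHull _ _ (by simp)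
      have hq : q ∈ convexHull ℝ ({p, q, r} : Set (ℝ × ℝ)) := subset_convexHull _ _ (by simp)
      have hr : r ∈ convexHull ℝ ({p, q, r} : Set (ℝ × ℝ)) := subset_convexHull _ _ (by simp)
      rw [hgapp]
      by_cases hu : u.1 + u.2 = 0
      · have e1 : u.1 = 0 := by linarith
        have e2 : u.2 = 0 := by linarith
        rw [e1, e2]
        simpa using hp
      · have hpos : 0 < u.1 + u.2 := lt_of_le_of_ne (by linarith) (Ne.symm hu)
        have hm := hc hq hr (a := u.1 / (u.1 + u.2)) (b := u.2 / (u.1 + u.2))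
          (by positivity) (by positivity) (by field_simp)
        have hm2 := hc hp hm (a := 1 - (u.1 + u.2)) (b := u.1 + u.2) (by linarith) hpos.le (by ring)
        convert hm2 using 1
        ext
        · simp only [Prod.fst_add, Prod.smul_fst, smul_eq_mul]
          field_simp
          ring
        · simp only [Prod.snd_add, Prod.smul_snd, smul_eq_mul]
          field_simp
          ring
  rw [hhull]
  constructor
  · have hpre : (fun w => p + w) '' (L '' T0) = (fun w => -p + w) ⁻¹' (L '' T0) := by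
      rw [Set.image_add_left]
    rw [himg, hpre, measure_preimage_add, Measure.addHaar_image_linearMap, hdet]
    have : ENNReal.ofReal (|ar p q r| / 4) = ENNReal.ofReal |ar p q r| * ENNReal.ofReal (1 / 4) := by
      rw [← ENNReal.ofReal_mul (abs_nonneg _)]
      congr 1
      ring
    rw [this]
    gcongr
    exact T0_volume
  · rw [← g.image_frontier]
    rintro _ ⟨u, hu, rfl⟩
    obtain ⟨⟨h1, h2, h3⟩, h4⟩ := T0_frontier hu
    rw [hgapp]
    rcases h4 with h | h | h
    · apply hpr
      refine ⟨1 - u.2, u.2, by linarith, h2, by ring, ?_⟩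
      ext
      · simp [h]; ring
      · simp [h]; ring
    · apply hpq
      refine ⟨1 - u.1, u.1, by linarith, h1, by ring, ?_⟩
      ext
      · simp [h]; ring
      · simp [h]; ring
    · apply hqr
      refine ⟨u.1, u.2, h1, h2, h, ?_⟩
      have h5 : u.1 = 1 - u.2 := by linarith
      ext
      · simp [h5]; ring
      · simp [h5]; ring

/-- **Main result** (polynomial dependence, Lebesgue measurable sets, triangles). -/
theorem result (ε : ℝ) (hε : 0 < ε) (S : Set (ℝ × ℝ)) (hS : BeerDefined S)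
    (hb : ε ≤ beerIndex S) :
    ∃ p ∈ S, ∃ q ∈ S, ∃ r ∈ S,
      frontier (convexHull ℝ {p, q, r}) ⊆ S ∧
      ε ^ 8 / (2 * 10 ^ 10) * (volume S).toReal ≤ (volume (convexHull ℝ {p, q, r})).toReal := by
  obtain ⟨hSm, h0, htop, hseg⟩ := hS
  set M := (volume S).toReal with hM
  have hMpos : 0 < M := ENNReal.toReal_pos h0.ne' htop.ne
  have hMof : volume S = ENNReal.ofReal M := (ENNReal.ofReal_toReal htop.ne).symm
  -- the measure of `Seg S` is at most the square of the area
  have hle : volume (Seg S) ≤ ENNReal.ofReal (M ^ 2) := by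
    have hsub : Seg S ⊆ S ×ˢ S := fun p hp => ⟨hp.1, hp.2.1⟩
    refine (measure_mono hsub).trans ?_
    rw [Measure.volume_eq_prod, Measure.prod_prod, hMof, ← ENNReal.ofReal_mul hMpos.le, pow_two]
  have hfin : volume (Seg S) ≠ ⊤ := ne_top_of_le_ne_top ENNReal.ofReal_ne_top hle
  have hlow : ε * M ^ 2 ≤ (volume (Seg S)).toReal := by
    unfold beerIndex at hb
    rwa [le_div_iff₀ (by positivity)] at hb
  have hε1 : ε ≤ 1 := by
    have h1 : (volume (Seg S)).toReal ≤ M ^ 2 := by
      have := ENNReal.toReal_mono ENNReal.ofReal_ne_top hle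
      rwa [ENNReal.toReal_ofReal (by positivity)] at this
    have h2 : ε * M ^ 2 ≤ 1 * M ^ 2 := by linarith
    exact le_of_mul_le_mul_right h2 (by positivity)
  have hdens : ENNReal.ofReal ε * (volume S) ^ 2 ≤
      volume {p : (ℝ × ℝ) × (ℝ × ℝ) | segment ℝ p.1 p.2 ⊆ S} := by
    rw [← seg_eq, hMof, ← ENNReal.ofReal_pow hMpos.le, ← ENNReal.ofReal_mul hε.le,
      ENNReal.ofReal_le_iff_le_toReal hfin]
    exact hlow
  rw [seg_eq] at hseg
  obtain ⟨p, q, r, h1, h2, h3, h4⟩ := main_null ε hε hε1 S h0 htop hseg hdens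
  have hpos : 0 < |ar p q r| := lt_of_lt_of_le (by positivity) h4
  obtain ⟨k1, k2⟩ := triangle_hull S p q r (abs_pos.mp hpos) h1 h2 h3
  refine ⟨p, h1 (left_mem_segment ℝ _ _), q, h1 (right_mem_segment ℝ _ _), r,
    h2 (right_mem_segment ℝ _ _), k2, ?_⟩
  have hfin2 : volume (convexHull ℝ {p, q, r}) ≠ ⊤ := by
    have hcomp : IsCompact (convexHull ℝ ({p, q, r} : Set (ℝ × ℝ))) :=
      (Set.toFinite {p, q, r}).isCompact_convexHull ℝ
    exact hcomp.measure_lt_top.ne
  rw [ENNReal.ofReal_le_iff_le_toReal hfin2] at k1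
  refine le_trans ?_ k1
  rw [← hM] at h4
  have h5 : ((ε / 2) ^ 4 / 400) ^ 2 / 60 * M / 2 = ε ^ 8 / 4915200000 * M := by ring
  rw [h5] at h4
  have h6 : 0 < ε ^ 8 * M := by positivity
  have h7 : ε ^ 8 / (2 * 10 ^ 10) * M = (ε ^ 8 * M) / (2 * 10 ^ 10) := by ring
  have h8 : ε ^ 8 / 4915200000 * M = (ε ^ 8 * M) / 4915200000 := by ring
  rw [h7]
  rw [h8] at h4
  have h9 : (ε ^ 8 * M) / (2 * 10 ^ 10) ≤ (ε ^ 8 * M) / 4915200000 / 4 := by
    rw [div_div]
    apply div_le_div_of_nonneg_left h6.le (by norm_num) (by norm_num)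
  linarith

end Pool.Agent.Results.MP_e9a110_co.BeerTriangleBound
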